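import Pool.Agent.N590.MS.Defs

set_option autoImplicit false

/-!
# Gates of unbounded fan-in for a single polynomial: definitions
-/

namespace Pool.Agent.N590.UF

open Pool.Agent.H53R3 Pool.Agent.N590.MS

/-- Three families of derivations of the field `E`, which vanish on `F`, such that derivations of
different families commute: partial derivatives with respect to three groups of variables. -/
structure Three (F : Type*) {E X Y Z : Type*} [Field F] [Field E] [Algebra F E]
    (dA : X → E → E) (dB : Y → E → E) (dC : Z → E → E) : Prop where
  derA : ∀ x, IsDer (dA x)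
  derB : ∀ y, IsDer (dB y)
  derC : ∀ c, IsDer (dC c)
  ab : ∀ x y u, dA x (dB y u) = dB y (dA x u)
  ac : ∀ x c u, dA x (dC c u) = dC c (dA x u)
  bc : ∀ y c u, dB y (dC c u) = dC c (dB y u)
  constA : ∀ x (c : F), dA x (algebraMap F E c) = 0
  constB : ∀ y (c : F), dB y (algebraMap F E c) = 0
  constC : ∀ c (u : F), dC c (algebraMap F E u) = 0

/-- The elements which depend on the variables of at most one of the three groups. -/
def OneGroup {E X Y Z : Type*} [Field E] (dA : X → E → E) (dB : Y → E → E) (dC : Z → E → E) :
    Set E :=
  {u | ((∀ x, dA x u = 0) ∧ ∀ y, dB y u = 0) ∨ ((∀ x, dA x u = 0) ∧ ∀ c, dC c u = 0) ∨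
    ((∀ y, dB y u = 0) ∧ ∀ c, dC c u = 0)}

/-- `z` is a twice differentiable function of `w`: the differential of `z` is `h` times the
differential of `w`, and the differential of `h` is a multiple of the differential of `w`. -/
def Fn2 {E X Y Z : Type*} [Field E] (dA : X → E → E) (dB : Y → E → E) (dC : Z → E → E)
    (w z : E) : Prop :=
  ∃ h g : E, (∀ x, dA x z = h * dA x w) ∧ (∀ y, dB y z = h * dB y w) ∧
    (∀ c, dC c z = h * dC c w) ∧ (∀ x, dA x h = g * dA x w) ∧ (∀ y, dB y h = g * dB y w) ∧
    ∀ c, dC c h = g * dC c w

/-- Rational functions in variables, some of which belong to one of three groups: the functions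
which depend on the variables of at most one group (and on the variables in no group). -/
def FreeG (F : Type) [Field F] {σ : Type} (grp : σ → Option (Fin 3)) :
    Set (FractionRing (MvPolynomial σ F)) :=
  {u | ∃ i : Fin 3, u ∈ IntermediateField.adjoin F
    {x | ∃ v : σ, (grp v = none ∨ grp v = some i) ∧
      x = algebraMap (MvPolynomial σ F) _ (MvPolynomial.X v)}}

/-- The polynomial `f` can be computed with `t` gates of unbounded fan-in: each step gives a rational
function of one quantity, which is a linear combination or a product (with exponents `1` and `-1`,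
repetitions allowed) of results of previous steps and of functions which depend on the variables of
at most one group; `f` is a linear combination of such functions and results of steps. -/
def InGates (F : Type) [Field F] {σ : Type} (grp : σ → Option (Fin 3)) (f : MvPolynomial σ F)
    (t : ℕ) : Prop :=
  ∃ z : ℕ → FractionRing (MvPolynomial σ F),
    IsRun F (fun w z => z ∈ IntermediateField.adjoin F {w}) (FreeG F grp) z t ∧
    algebraMap (MvPolynomial σ F) (FractionRing (MvPolynomial σ F)) f ∈
      Submodule.span F (Avail (FreeG F grp) z t)

/-- the entries of three matrices -/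
abbrev V3 (m n p : ℕ) : Type := (Fin m × Fin n) ⊕ (Fin n × Fin p) ⊕ (Fin p × Fin m)

/-- each matrix is a group -/
def grp3 {m n p : ℕ} : V3 m n p → Option (Fin 3)
  | Sum.inl _ => some 0
  | Sum.inr (Sum.inl _) => some 1
  | Sum.inr (Sum.inr _) => some 2

/-- The trace of the product of three generic matrices. -/
noncomputable def traceABC (F : Type) [Field F] (m n p : ℕ) : MvPolynomial (V3 m n p) F :=
  ∑ i : Fin m, ∑ j : Fin n, ∑ k : Fin p, MvPolynomial.X (Sum.inl (i, j)) *
    MvPolynomial.X (Sum.inr (Sum.inl (j, k))) * MvPolynomial.X (Sum.inr (Sum.inr (k, i)))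

/-- The entries in the first `q` columns, in the next `q` columns and in the `q` columns after these
are the three groups of the entries of an `n × n` matrix. -/
def grpCol (q : ℕ) {n : ℕ} (v : Fin n × Fin n) : Option (Fin 3) :=
  if (v.2 : ℕ) < q then some 0 else if (v.2 : ℕ) < 2 * q then some 1
  else if (v.2 : ℕ) < 3 * q then some 2 else none

/-- The least number of gates of unbounded fan-in for the trace of the product of three generic
`m × m` matrices. -/
noncomputable def gatesTrace (F : Type) [Field F] (m : ℕ) : ℕ :=
  sInf {t | InGates F grp3 (traceABC F m m m) t}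

end Pool.Agent.N590.UF
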