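import Pool.Agent.N590.MS.Core2
import Pool.Agent.N590.UF.Defs

set_option autoImplicit false

/-!
# Reverse mode differentiation for gates of unbounded fan-in
-/

namespace Pool.Agent.N590.UF

open Pool.Agent.H53R3 Pool.Agent.N590.MS Finset

section

variable {F E X Y Z : Type*} [Field F] [Field E] [Algebra F E] {dA : X → E → E} {dB : Y → E → E}
  {dC : Z → E → E}

theorem Three.diffs (h : Three F dA dB dC) : Diffs dA dB := ⟨h.derA, h.derB, h.ab⟩

theorem oneGroup_subset : OneGroup dA dB dC ⊆ OneSided dA dB := by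
  rintro u (⟨h, _⟩ | ⟨h, _⟩ | ⟨h, _⟩)
  · exact Or.inl h
  · exact Or.inl h
  · exact Or.inr h

/-- killed by the first two families -/
def Ker (dA : X → E → E) (dB : Y → E → E) (u : E) : Prop := (∀ x, dA x u = 0) ∧ ∀ y, dB y u = 0

theorem Ker.zero (h : Three F dA dB dC) : Ker dA dB 0 :=
  ⟨fun x => (h.derA x).zero, fun y => (h.derB y).zero⟩

theorem Ker.add (h : Three F dA dB dC) {u v : E} (hu : Ker dA dB u) (hv : Ker dA dB v) :
    Ker dA dB (u + v) :=
  ⟨fun x => by rw [(h.derA x).add, hu.1, hv.1, add_zero],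
    fun y => by rw [(h.derB y).add, hu.2, hv.2, add_zero]⟩

theorem Ker.mul (h : Three F dA dB dC) {u v : E} (hu : Ker dA dB u) (hv : Ker dA dB v) :
    Ker dA dB (u * v) :=
  ⟨fun x => by rw [(h.derA x).mul, hu.1, hv.1, zero_mul, mul_zero, add_zero],
    fun y => by rw [(h.derB y).mul, hu.2, hv.2, zero_mul, mul_zero, add_zero]⟩

theorem Ker.neg (h : Three F dA dB dC) {u : E} (hu : Ker dA dB u) : Ker dA dB (-u) :=
  ⟨fun x => by rw [(h.derA x).neg, hu.1, neg_zero],
    fun y => by rw [(h.derB y).neg, hu.2, neg_zero]⟩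

theorem Ker.inv (h : Three F dA dB dC) {u : E} (hu : Ker dA dB u) : Ker dA dB u⁻¹ :=
  ⟨fun x => by rw [IsDer.inv' (h.derA x), hu.1, mul_zero, neg_zero],
    fun y => by rw [IsDer.inv' (h.derB y), hu.2, mul_zero, neg_zero]⟩

theorem Ker.const (h : Three F dA dB dC) (c : F) : Ker dA dB (algebraMap F E c) :=
  ⟨fun x => h.constA x c, fun y => h.constB y c⟩

theorem Ker.derC (h : Three F dA dB dC) {u : E} (hu : Ker dA dB u) (c : Z) : Ker dA dB (dC c u) :=
  ⟨fun x => by rw [h.ac, hu.1, (h.derC c).zero], fun y => by rw [h.bc, hu.2, (h.derC c).zero]⟩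

theorem Ker.intCast (h : Three F dA dB dC) (n : ℤ) : Ker dA dB (n : E) := by
  have := Ker.const h (n : F)
  rwa [map_intCast] at this

theorem M_ker_mul (h : Three F dA dB dC) {κ : E} (hκ : Ker dA dB κ) (u : E) :
    M dA dB (κ * u) = κ • M dA dB u := by
  funext x y
  simp only [M, Pi.smul_apply, smul_eq_mul, (h.derB y).mul, (h.derA x).mul, hκ.1,
    hκ.2, zero_mul, zero_add]

/-- the logarithmic derivative of a free element -/
theorem oneGroup_dC (h : Three F dA dB dC) {u : E} (hu : u ∈ OneGroup dA dB dC) (c : Z) :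
    Ker dA dB (dC c u) ∧ Ker dA dB (dC c u / u) := by
  rcases hu with hu | ⟨_, hu⟩ | ⟨_, hu⟩
  · have h1 := Ker.derC h (show Ker dA dB u from hu) c
    exact ⟨h1, by rw [div_eq_mul_inv]; exact Ker.mul h h1 (Ker.inv h hu)⟩
  · rw [hu c, zero_div]; exact ⟨Ker.zero h, Ker.zero h⟩
  · rw [hu c, zero_div]; exact ⟨Ker.zero h, Ker.zero h⟩

/-- derivatives of linear combinations -/
theorem expand_add (h : Three F dA dB dC) {z : ℕ → E} {i : ℕ} {w : E}
    (hw : w ∈ Submodule.span F (Avail (OneGroup dA dB dC) z i)) :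
    ∃ (κ : Z → E) (γ : ℕ → F), (∀ c, Ker dA dB (κ c)) ∧
      ∀ c, dC c w = κ c + ∑ j ∈ range i, algebraMap F E (γ j) * dC c (z j) := by
  classical
  induction hw using Submodule.span_induction with
  | mem x hx =>
    rcases hx with hx | ⟨j, hj, rfl⟩
    · exact ⟨fun c => dC c x, 0, fun c => (oneGroup_dC h hx c).1, fun c => by simp⟩
    · refine ⟨0, Pi.single j 1, fun c => Ker.zero h, fun c => ?_⟩
      rw [Finset.sum_eq_single j]
      · simp
      · intro j' _ hne
        rw [Pi.single_eq_of_ne hne, map_zero, zero_mul]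
      · intro hn
        exact absurd (Finset.mem_range.2 hj) hn
  | zero => exact ⟨0, 0, fun c => Ker.zero h, fun c => by simp [(h.derC c).zero]⟩
  | add x y _ _ hx hy =>
    obtain ⟨κ, γ, h1, h2⟩ := hx
    obtain ⟨κ', γ', h1', h2'⟩ := hy
    refine ⟨κ + κ', γ + γ', fun c => Ker.add h (h1 c) (h1' c), fun c => ?_⟩
    rw [(h.derC c).add, h2, h2']
    simp only [Pi.add_apply, map_add, add_mul, Finset.sum_add_distrib]
    ring
  | smul a x _ hx =>
    obtain ⟨κ, γ, h1, h2⟩ := hx
    refine ⟨fun c => algebraMap F E a * κ c, fun j => a * γ j,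
      fun c => Ker.mul h (Ker.const h a) (h1 c), fun c => ?_⟩
    rw [Algebra.smul_def, (h.derC c).mul, h.constC, zero_mul, zero_add, h2, mul_add,
      Finset.mul_sum]
    congr 1
    refine Finset.sum_congr rfl fun j _ => ?_
    rw [map_mul, mul_assoc]

/-- derivatives of products -/
theorem expand_mul (h : Three F dA dB dC) {z : ℕ → E} {i : ℕ} {w : E}
    (hw : w ∈ Submonoid.closure (Avail (OneGroup dA dB dC) z i ∪
      {x | x⁻¹ ∈ Avail (OneGroup dA dB dC) z i})) :
    ∃ (κ : Z → E) (e : ℕ → ℤ), (∀ c, Ker dA dB (κ c)) ∧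
      ∀ c, dC c w = w * (κ c + ∑ j ∈ range i, (e j : E) * (dC c (z j) / z j)) := by
  classical
  have base : ∀ x ∈ Avail (OneGroup dA dB dC) z i, ∃ (κ : Z → E) (e : ℕ → ℤ),
      (∀ c, Ker dA dB (κ c)) ∧
      ∀ c, dC c x = x * (κ c + ∑ j ∈ range i, (e j : E) * (dC c (z j) / z j)) := by
    rintro x (hx | ⟨j, hj, rfl⟩)
    · refine ⟨fun c => dC c x / x, 0, fun c => (oneGroup_dC h hx c).2, fun c => ?_⟩
      by_cases h0 : x = 0
      · rw [h0, (h.derC c).zero, zero_mul]
      · simp only [Pi.zero_apply, Int.cast_zero, zero_mul, Finset.sum_const_zero, add_zero]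
        field_simp
    · refine ⟨0, Pi.single j 1, fun c => Ker.zero h, fun c => ?_⟩
      rw [Finset.sum_eq_single j]
      · by_cases h0 : z j = 0
        · rw [h0, (h.derC c).zero, zero_mul]
        · simp only [Pi.zero_apply, Pi.single_eq_same, Int.cast_one, one_mul, zero_add]
          field_simp
      · intro j' _ hne
        rw [Pi.single_eq_of_ne hne, Int.cast_zero, zero_mul]
      · intro hn
        exact absurd (Finset.mem_range.2 hj) hn
  induction hw using Submonoid.closure_induction with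
  | mem x hx =>
    rcases hx with hx | hx
    · exact base x hx
    · obtain ⟨κ, e, h1, h2⟩ := base _ hx
      refine ⟨fun c => -κ c, fun j => -e j, fun c => Ker.neg h (h1 c), fun c => ?_⟩
      have h3 : dC c x = -(x ^ 2 * dC c x⁻¹) := by
        have := IsDer.inv' (h.derC c) x⁻¹
        rw [inv_inv] at this
        exact this
      rw [h3, h2]
      have e1 : (∑ j ∈ range i, ((-e j : ℤ) : E) * (dC c (z j) / z j)) =
          -∑ j ∈ range i, (e j : E) * (dC c (z j) / z j) := by
        rw [← Finset.sum_neg_distrib]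
        refine Finset.sum_congr rfl fun j _ => ?_
        push_cast; ring
      rw [e1]
      by_cases h0 : x = 0
      · subst h0; simp
      · field_simp
        ring
  | one => exact ⟨0, 0, fun c => Ker.zero h, fun c => by simp [(h.derC c).one]⟩
  | mul x y _ _ hx hy =>
    obtain ⟨κ, e, h1, h2⟩ := hx
    obtain ⟨κ', e', h1', h2'⟩ := hy
    refine ⟨κ + κ', e + e', fun c => Ker.add h (h1 c) (h1' c), fun c => ?_⟩
    rw [(h.derC c).mul, h2, h2']
    have e1 : (∑ j ∈ range i, (((e + e') j : ℤ) : E) * (dC c (z j) / z j)) =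
        (∑ j ∈ range i, (e j : E) * (dC c (z j) / z j)) +
          ∑ j ∈ range i, (e' j : E) * (dC c (z j) / z j) := by
      rw [← Finset.sum_add_distrib]
      refine Finset.sum_congr rfl fun j _ => ?_
      rw [Pi.add_apply]; push_cast; ring
    rw [e1, Pi.add_apply]
    ring

end

end Pool.Agent.N590.UF
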