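import Pool.Agent.N590.UF.Rat

set_option autoImplicit false

/-!
# The determinant
-/

namespace Pool.Agent.N590.UF

open Pool.Agent.H53R3 Pool.Agent.N590.MS Pool.Agent.W956.KF MvPolynomial

section

variable {F : Type} [Field F] {n : ℕ}
  {D : Fin n × Fin n → FractionRing (MvPolynomial (Fin n × Fin n) F) →
    FractionRing (MvPolynomial (Fin n × Fin n) F)}

/-- the generic matrix -/
noncomputable def gen (F : Type) [Field F] (n : ℕ) :
    Matrix (Fin n) (Fin n) (FractionRing (MvPolynomial (Fin n × Fin n) F)) :=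
  Matrix.of fun i j => gz F (Fin n × Fin n) (i, j)

theorem gen_det (F : Type) [Field F] (n : ℕ) : (gen F n).det =
    algebraMap (MvPolynomial (Fin n × Fin n) F) _ (Matrix.mvPolynomialX (Fin n) (Fin n) F).det := by
  rw [RingHom.map_det]
  rfl

theorem gen_unit (F : Type) [Field F] (n : ℕ) : IsUnit (gen F n).det := by
  rw [isUnit_iff_ne_zero, gen_det]
  intro h
  refine Matrix.det_mvPolynomialX_ne_zero (Fin n) F ?_
  exact (IsFractionRing.injective (MvPolynomial (Fin n × Fin n) F)
    (FractionRing (MvPolynomial (Fin n × Fin n) F))) (by rw [h, map_zero])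

variable (hD : ∀ v, IsDer (D v)) (hx : ∀ v u, D v (gz F _ u) = if u = v then 1 else 0)

include hx in
theorem dMat_gen (v : Fin n × Fin n) : dMat (D v) (gen F n) = Matrix.single v.1 v.2 1 := by
  refine Matrix.ext fun i j => ?_
  simp only [dMat, Matrix.map_apply, gen, Matrix.of_apply, hx, Matrix.single_apply]
  refine if_congr ?_ rfl rfl
  constructor
  · rintro rfl; exact ⟨rfl, rfl⟩
  · rintro ⟨h1, h2⟩; exact Prod.ext h1.symm h2.symm

include hD hx in
theorem dG (v : Fin n × Fin n) (i j : Fin n) :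
    D v ((gen F n)⁻¹ i j) = -((gen F n)⁻¹ i v.1 * (gen F n)⁻¹ v.2 j) := by
  have h1 := (hD v).dMat_inv (gen F n) (gen_unit F n)
  have h2 := congrFun (congrFun h1 i) j
  simp only [dMat, Matrix.map_apply] at h2
  rw [h2]
  have h3 := dMat_gen hx v
  unfold dMat at h3
  rw [h3, Matrix.neg_apply, Matrix.mul_apply]
  congr 1
  rw [Finset.sum_eq_single v.2]
  · congr 1
    rw [Matrix.mul_apply, Finset.sum_eq_single v.1]
    · simp
    · intro b _ hb
      rw [Matrix.single_apply, if_neg (fun h => hb h.1.symm), mul_zero]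
    · simp
  · intro b _ hb
    rw [Matrix.mul_apply, Finset.sum_eq_zero, zero_mul]
    intro l _
    rw [Matrix.single_apply, if_neg (fun h => hb h.2.symm), mul_zero]
  · simp

include hD hx in
theorem dlog (v : Fin n × Fin n) :
    D v (algebraMap (MvPolynomial (Fin n × Fin n) F) _
      (Matrix.mvPolynomialX (Fin n) (Fin n) F).det) /
      algebraMap (MvPolynomial (Fin n × Fin n) F) _
      (Matrix.mvPolynomialX (Fin n) (Fin n) F).det = (gen F n)⁻¹ v.2 v.1 := by
  rw [← gen_det]
  have h1 := (hD v).det (gen F n) (gen_unit F n)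
  rw [h1, dMat_gen hx]
  have h0 : (gen F n).det ≠ 0 := (gen_unit F n).ne_zero
  rw [mul_div_cancel_left₀ _ h0, Matrix.trace]
  simp only [Matrix.diag_apply, Matrix.mul_apply, Matrix.single_apply]
  rw [Finset.sum_eq_single v.2]
  · rw [Finset.sum_eq_single v.1]
    · simp
    · intro b _ hb
      rw [if_neg (fun h => hb h.1.symm), mul_zero]
    · simp
  · intro b _ hb
    refine Finset.sum_eq_zero fun l _ => ?_
    rw [if_neg (fun h => hb h.2.symm), mul_zero]
  · simp

theorem inv_mul_apply' (a b : Fin n) :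
    ∑ x, (gen F n)⁻¹ a x * gen F n x b = if a = b then 1 else 0 := by
  have := congrFun (congrFun (Matrix.nonsing_inv_mul (gen F n) (gen_unit F n)) a) b
  rw [Matrix.mul_apply] at this
  rw [this, Matrix.one_apply]

end

theorem sum_three {R α β γ : Type} [CommSemiring R] [Fintype α] [Fintype β] [Fintype γ]
    (f : α → R) (g : β → R) (k : γ → R) :
    (∑ y, f y) * (∑ r, g r) * (∑ x, k x) = ∑ y, ∑ r, ∑ x, f y * g r * k x := by
  rw [Finset.sum_mul_sum, Finset.sum_mul]
  refine Finset.sum_congr rfl fun y _ => ?_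
  rw [Finset.sum_mul]
  exact Finset.sum_congr rfl fun r _ => by rw [Finset.mul_sum]

/-- **The determinant.** -/
theorem det_rank {F : Type} [Field F] [Infinite F] {n q t : ℕ} (hq : 3 * q ≤ n)
    (h : InGates F (grpCol q) (Matrix.mvPolynomialX (Fin n) (Fin n) F).det t) :
    RankLE F q q q (5 * t + 1) := by
  classical
  obtain ⟨D, hD, hc, hx, hcomm⟩ := exists_all F (Fin n × Fin n)
  let e0 : Fin q → Fin n := fun i => ⟨i, by omega⟩
  let e1 : Fin q → Fin n := fun i => ⟨q + i, by omega⟩
  let e2 : Fin q → Fin n := fun i => ⟨2 * q + i, by omega⟩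
  let a : Fin n × Fin q → Fin n × Fin n := fun x => (x.1, e0 x.2)
  let b : Fin n × Fin q → Fin n × Fin n := fun x => (x.1, e1 x.2)
  let c : Fin n × Fin q → Fin n × Fin n := fun x => (x.1, e2 x.2)
  have ga : ∀ x, grpCol q (a x) = some 0 := fun x => by
    simp only [grpCol, a, e0]
    rw [if_pos x.2.2]
  have gb : ∀ x, grpCol q (b x) = some 1 := fun x => by
    simp only [grpCol, b, e1]
    rw [if_neg (by omega), if_pos (by omega)]
  have gc : ∀ x, grpCol q (c x) = some 2 := fun x => by
    simp only [grpCol, c, e2]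
    rw [if_neg (by omega), if_neg (by omega), if_pos (by omega)]
  obtain ⟨-, ⟨U, hU, hM⟩⟩ := third_rat hD hc hx hcomm a b c (grpCol q) ga gb gc h
  have hcoef := fun z => exists_coef (hM z)
  choose κ hκ using hcoef
  set G := (gen F n)⁻¹ with hG
  set A := gen F n with hA
  -- the third derivatives of the logarithm of the determinant
  have hT : ∀ x y z, (∑ u, κ z u * (D (a x) u.1 * D (b y) u.1)) =
      G (e2 z.2) x.1 * G (e0 x.2) y.1 * G (e1 y.2) z.1 +
        G (e2 z.2) y.1 * G (e1 y.2) x.1 * G (e0 x.2) z.1 := by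
    intro x y z
    rw [← hκ, dlog hD hx]
    simp only [M, b, a, c]
    rw [dG hD hx, (hD _).neg, (hD _).mul, dG hD hx, dG hD hx]
    simp only [← hG]
    ring
  have hR : RankLE (FractionRing (MvPolynomial (Fin n × Fin n) F)) q q q (Fintype.card U) := by
    let ε := Fintype.equivFin U
    refine ⟨fun l => Matrix.of fun i j => ∑ y, A y (e0 i) * D (b (y, j)) (ε.symm l).1,
      fun l => Matrix.of fun j k => ∑ r, A r (e1 j) * κ (r, k) (ε.symm l),
      fun l => Matrix.of fun i k => ∑ x, A x (e2 k) * D (a (x, i)) (ε.symm l).1,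
      fun i i' j j' k k' => ?_⟩
    simp only [Matrix.of_apply]
    rw [ε.symm.sum_comp (fun u => (∑ y, A y (e0 i) * D (b (y, j)) u.1) *
      (∑ r, A r (e1 j') * κ (r, k) u) * ∑ x, A x (e2 k') * D (a (x, i')) u.1)]
    have s1 : ∀ u : U, (∑ y, A y (e0 i) * D (b (y, j)) u.1) *
        (∑ r, A r (e1 j') * κ (r, k) u) * ∑ x, A x (e2 k') * D (a (x, i')) u.1 =
        ∑ y, ∑ r, ∑ x, A y (e0 i) * A r (e1 j') * A x (e2 k') *
          (κ (r, k) u * (D (a (x, i')) u.1 * D (b (y, j)) u.1)) := by
      intro u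
      rw [Finset.sum_mul_sum, Finset.sum_mul]
      refine Finset.sum_congr rfl fun y _ => ?_
      rw [Finset.sum_mul]
      refine Finset.sum_congr rfl fun r _ => ?_
      rw [Finset.mul_sum]
      exact Finset.sum_congr rfl fun x _ => by ring
    simp only [s1]
    rw [Finset.sum_comm]
    have s2 : ∀ y, (∑ u : U, ∑ r, ∑ x, A y (e0 i) * A r (e1 j') * A x (e2 k') *
          (κ (r, k) u * (D (a (x, i')) u.1 * D (b (y, j)) u.1))) =
        ∑ r, ∑ x, A y (e0 i) * A r (e1 j') * A x (e2 k') *
          (G (e2 k) x * G (e0 i') y * G (e1 j) r + G (e2 k) y * G (e1 j) x * G (e0 i') r) := by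
      intro y
      rw [Finset.sum_comm]
      refine Finset.sum_congr rfl fun r _ => ?_
      rw [Finset.sum_comm]
      refine Finset.sum_congr rfl fun x _ => ?_
      rw [← Finset.mul_sum]
      congr 1
      exact hT (x, i') (y, j) (r, k)
    simp only [s2]
    have s3 : (∑ y, ∑ r, ∑ x, A y (e0 i) * A r (e1 j') * A x (e2 k') *
          (G (e2 k) x * G (e0 i') y * G (e1 j) r + G (e2 k) y * G (e1 j) x * G (e0 i') r)) =
        (∑ y, G (e0 i') y * A y (e0 i)) * (∑ r, G (e1 j) r * A r (e1 j')) *
          (∑ x, G (e2 k) x * A x (e2 k')) +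
        (∑ y, G (e2 k) y * A y (e0 i)) * (∑ r, G (e0 i') r * A r (e1 j')) *
          (∑ x, G (e1 j) x * A x (e2 k')) := by
      rw [sum_three, sum_three, ← Finset.sum_add_distrib]
      refine Finset.sum_congr rfl fun y _ => ?_
      rw [← Finset.sum_add_distrib]
      refine Finset.sum_congr rfl fun r _ => ?_
      rw [← Finset.sum_add_distrib]
      exact Finset.sum_congr rfl fun x _ => by ring
    rw [s3]
    simp only [hG, hA, inv_mul_apply']
    have n1 : e2 k ≠ e0 i := by
      intro h
      have := congrArg Fin.val h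
      simp only [e0, e2] at this
      omega
    rw [if_neg n1]
    have i0 : (e0 i' = e0 i) ↔ i = i' := by
      simp only [e0, Fin.mk.injEq, Fin.ext_iff]
      omega
    have i1 : (e1 j = e1 j') ↔ j = j' := by
      simp only [e1, Fin.mk.injEq, Fin.ext_iff]
      omega
    have i2 : (e2 k = e2 k') ↔ k = k' := by
      simp only [e2, Fin.mk.injEq, Fin.ext_iff]
      omega
    simp only [i0, i1, i2]
    by_cases h1 : i = i' <;> by_cases h2 : j = j' <;> by_cases h3 : k = k' <;> simp [h1, h2, h3]
  rw [Fintype.card_coe] at hR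
  exact rank_descend (hR.mono hU)

end Pool.Agent.N590.UF
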