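import Pool.Agent.N590.UF.Det
import Pool.Agent.N590.MS.Steps

set_option autoImplicit false

/-!
# The upper bound for the trace; the exponents
-/

namespace Pool.Agent.N590.UF

open Pool.Agent.H53R3 Pool.Agent.N590.MS Pool.Agent.W956.KF MvPolynomial
open Pool.Agent.H826R3.SM (omegaMM)

theorem inGates_of_rank {F : Type} [Field F] {m n p r : ℕ} (h : RankLE F m n p r) :
    InGates F grp3 (traceABC F m n p) r := by
  classical
  obtain ⟨U, V, W, h⟩ := h
  let g : V3 m n p → FractionRing (MvPolynomial (V3 m n p) F) := gz F (V3 m n p)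
  let fA : Fin r → FractionRing (MvPolynomial (V3 m n p) F) :=
    fun l => ∑ x : Fin m × Fin n, U l x.1 x.2 • g (Sum.inl x)
  let fB : Fin r → FractionRing (MvPolynomial (V3 m n p) F) :=
    fun l => ∑ y : Fin n × Fin p, V l y.1 y.2 • g (Sum.inr (Sum.inl y))
  let fC : Fin r → FractionRing (MvPolynomial (V3 m n p) F) :=
    fun l => ∑ w : Fin p × Fin m, W l w.2 w.1 • g (Sum.inr (Sum.inr w))
  have hfA : ∀ l, fA l ∈ FreeG F (σ := V3 m n p) grp3 := by
    intro l
    refine ⟨0, sum_mem fun x _ => IntermediateField.smul_mem _ ?_⟩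
    exact IntermediateField.subset_adjoin _ _ ⟨Sum.inl x, Or.inr rfl, rfl⟩
  have hfB : ∀ l, fB l ∈ FreeG F (σ := V3 m n p) grp3 := by
    intro l
    refine ⟨1, sum_mem fun x _ => IntermediateField.smul_mem _ ?_⟩
    exact IntermediateField.subset_adjoin _ _ ⟨Sum.inr (Sum.inl x), Or.inr rfl, rfl⟩
  have hfC : ∀ l, fC l ∈ FreeG F (σ := V3 m n p) grp3 := by
    intro l
    refine ⟨2, sum_mem fun x _ => IntermediateField.smul_mem _ ?_⟩
    exact IntermediateField.subset_adjoin _ _ ⟨Sum.inr (Sum.inr x), Or.inr rfl, rfl⟩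
  refine ⟨fun l => if hl : l < r then fA ⟨l, hl⟩ * fB ⟨l, hl⟩ * fC ⟨l, hl⟩ else 0, ?_, ?_⟩
  · intro i hi
    refine ⟨fA ⟨i, hi⟩ * fB ⟨i, hi⟩ * fC ⟨i, hi⟩, Or.inr ?_, ?_⟩
    · exact mul_mem (mul_mem (Submonoid.subset_closure (Or.inl (Or.inl (hfA _))))
        (Submonoid.subset_closure (Or.inl (Or.inl (hfB _)))))
        (Submonoid.subset_closure (Or.inl (Or.inl (hfC _))))
    · simp only [dif_pos hi]
      exact IntermediateField.subset_adjoin _ _ rfl
  · have e : (algebraMap (MvPolynomial (V3 m n p) F) (FractionRing (MvPolynomial (V3 m n p) F))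
        (traceABC F m n p)) = ∑ l : Fin r, fA l * fB l * fC l := by
      have e1 : ∀ l, fA l * fB l * fC l = ∑ x : Fin m × Fin n, ∑ y : Fin n × Fin p,
          ∑ w : Fin p × Fin m, (U l x.1 x.2 * V l y.1 y.2 * W l w.2 w.1) •
            (g (Sum.inl x) * g (Sum.inr (Sum.inl y)) * g (Sum.inr (Sum.inr w))) := by
        intro l
        simp only [fA, fB, fC]
        rw [sum_three]
        refine Finset.sum_congr rfl fun x _ => Finset.sum_congr rfl fun y _ =>
          Finset.sum_congr rfl fun w _ => ?_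
        simp only [Algebra.smul_def, map_mul]
        ring
      simp only [e1]
      rw [Finset.sum_comm]
      have e2 : ∀ x : Fin m × Fin n, (∑ l : Fin r, ∑ y : Fin n × Fin p, ∑ w : Fin p × Fin m,
          (U l x.1 x.2 * V l y.1 y.2 * W l w.2 w.1) •
            (g (Sum.inl x) * g (Sum.inr (Sum.inl y)) * g (Sum.inr (Sum.inr w)))) =
          ∑ y : Fin n × Fin p, ∑ w : Fin p × Fin m,
            (if x.1 = w.2 ∧ x.2 = y.1 ∧ y.2 = w.1 then (1 : F) else 0) •
            (g (Sum.inl x) * g (Sum.inr (Sum.inl y)) * g (Sum.inr (Sum.inr w))) := by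
        intro x
        rw [Finset.sum_comm]
        refine Finset.sum_congr rfl fun y _ => ?_
        rw [Finset.sum_comm]
        refine Finset.sum_congr rfl fun w _ => ?_
        rw [← Finset.sum_smul, h]
      simp only [e2]
      unfold traceABC
      simp only [map_sum, map_mul]
      rw [Fintype.sum_prod_type]
      refine Finset.sum_congr rfl fun i _ => Finset.sum_congr rfl fun j _ => ?_
      rw [Fintype.sum_prod_type, Finset.sum_eq_single j]
      · refine Finset.sum_congr rfl fun k _ => ?_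
        rw [Finset.sum_eq_single (k, i)]
        · simp [g, gz]
        · rintro ⟨k', i'⟩ _ hne
          rw [if_neg, zero_smul]
          rintro ⟨h1, h2, h3⟩
          exact hne (by rw [Prod.mk.injEq]; exact ⟨h3.symm, h1.symm⟩)
        · simp
      · intro j' _ hj'
        refine Finset.sum_eq_zero fun k _ => Finset.sum_eq_zero fun w _ => ?_
        rw [if_neg (fun h0 => hj' h0.2.1.symm), zero_smul]
      · simp
    rw [e]
    refine Submodule.sum_mem _ fun l _ => Submodule.subset_span ?_
    right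
    exact ⟨l, l.2, by simp only [dif_pos l.2, Fin.eta]⟩

variable (F : Type) [Field F] [Infinite F]

omit [Infinite F] in
theorem gatesTrace_le (m : ℕ) : gatesTrace F m ≤ trank F m m m :=
  Nat.sInf_le (inGates_of_rank (rankLE_trank F m m m))

theorem trank_le_gatesTrace (m : ℕ) : trank F m m m ≤ 5 * gatesTrace F m := by
  have h : gatesTrace F m ∈ {t | InGates F grp3 (traceABC F m m m) t} :=
    Nat.sInf_mem ⟨_, inGates_of_rank (rankLE_trank F m m m)⟩
  exact trank_le (trace_rank h)

theorem gates_part : growth (gatesTrace F) = omega F ∧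
    (Superlinear (sizeMM F) ↔ Superlinear (gatesTrace F)) := by
  have hup : ∀ τ, omegaMM F < τ → ∃ D : ℝ, ∀ m : ℕ, (gatesTrace F m : ℝ) ≤ D * (m : ℝ) ^ τ := by
    intro τ hτ
    obtain ⟨D, hD⟩ := trank_upper F hτ
    exact ⟨D, fun m => le_trans (by exact_mod_cast gatesTrace_le F m) (hD m)⟩
  refine ⟨?_, ?_⟩
  · rw [omega_eq]
    exact growth_eq (trank_le_gatesTrace F) hup
  · have h1 := superlinear_iff (K := F) (f := sizeMM F) (c := 3) (by norm_num)
      (trank_le_three_size F) fun τ hτ => sizeMM_upper hτ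
    have h2 := superlinear_iff (K := F) (f := gatesTrace F) (c := 5) (by norm_num)
      (trank_le_gatesTrace F) hup
    exact h1.trans h2.symm

/-- **General form**: the tensor of the third derivatives has rank at most `5 t`. -/
theorem third_tensor {F E X Y Z : Type} [Field F] [Field E] [Algebra F E] {dA : X → E → E}
    {dB : Y → E → E} {dC : Z → E → E} (h : Three F dA dB dC) {z : ℕ → E} {t : ℕ}
    (hz : IsRun F (Fn2 dA dB dC) (OneGroup dA dB dC) z t) {f : E}
    (hf : f ∈ Submodule.span F (Avail (OneGroup dA dB dC) z t)) :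
    ∃ (u : Fin (5 * t) → X → E) (v : Fin (5 * t) → Y → E) (w : Fin (5 * t) → Z → E),
      ∀ x y c, dA x (dB y (dC c f)) = ∑ l, u l x * v l y * w l c := by
  classical
  obtain ⟨⟨U, hU, hM⟩, -⟩ := third h hz hf
  have hcoef := fun c => exists_coef (hM c)
  choose κ hκ using hcoef
  obtain ⟨ι⟩ : Nonempty (U ↪ Fin (5 * t)) :=
    Function.Embedding.nonempty_of_card_le (by rw [Fintype.card_coe, Fintype.card_fin]; exact hU)
  refine ⟨fun l x => Function.extend ι (fun u' => dA x u'.1) 0 l,
    fun l y => Function.extend ι (fun u' => dB y u'.1) 0 l,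
    fun l c => Function.extend ι (fun u' => κ c u') 0 l, fun x y c => ?_⟩
  have h1 : dA x (dB y (dC c f)) = ∑ u', κ c u' * (dA x u'.1 * dB y u'.1) := hκ c x y
  rw [h1]
  refine Fintype.sum_of_injective ι ι.injective _ _ ?_ ?_
  · intro l hl
    beta_reduce
    rw [Function.extend_apply' _ _ _ (fun ⟨a, ha⟩ => hl ⟨a, ha⟩), Pi.zero_apply]
    ring
  · intro i
    beta_reduce
    rw [ι.injective.extend_apply, ι.injective.extend_apply, ι.injective.extend_apply]
    ring

end Pool.Agent.N590.UF
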