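import Pool.Agent.N590.UF.Rev
import Pool.Agent.N590.MS.Known

set_option autoImplicit false

/-!
# Rational functions: the trace of a product of three matrices
-/

namespace Pool.Agent.N590.UF

open Pool.Agent.H53R3 Pool.Agent.N590.MS Pool.Agent.W956.KF MvPolynomial

section general

variable {F : Type} [Field F] {σ : Type}

/-- all partial derivatives -/
theorem exists_all (F : Type) [Field F] (σ : Type) [DecidableEq σ] :
    ∃ D : σ → FractionRing (MvPolynomial σ F) → FractionRing (MvPolynomial σ F),
      (∀ v, IsDer (D v)) ∧ (∀ v (c : F), D v (algebraMap F _ c) = 0) ∧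
      (∀ v u, D v (gz F σ u) = if u = v then 1 else 0) ∧
      ∀ u v x, D u (D v x) = D v (D u x) := by
  choose D hD hc hx using exists_partial (K := F) (σ := σ)
  refine ⟨D, hD, hc, hx, fun u v x => ?_⟩
  have h := der_eq_zero (IsDer.commutator (hD u) (hD v)) ?_ ?_ x
  · exact sub_eq_zero.1 h
  · intro c
    simp only [hc, (hD _).zero, sub_zero]
  · intro j
    simp only [hx]
    split_ifs <;> simp [(hD _).zero, (hD _).one]

/-- rational functions of one quantity -/
theorem adjoin_deriv {w z : FractionRing (MvPolynomial σ F)}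
    (hz : z ∈ IntermediateField.adjoin F {w}) :
    ∃ h ∈ IntermediateField.adjoin F {w},
      ∀ D : FractionRing (MvPolynomial σ F) → FractionRing (MvPolynomial σ F), IsDer D →
        (∀ c : F, D (algebraMap F _ c) = 0) → D z = h * D w := by
  induction hz using IntermediateField.adjoin_induction with
  | mem x hx =>
    rw [Set.mem_singleton_iff] at hx
    subst hx
    exact ⟨1, one_mem _, fun D _ _ => (one_mul _).symm⟩
  | algebraMap c => exact ⟨0, zero_mem _, fun D _ hc => by rw [hc, zero_mul]⟩
  | add x y _ _ hx hy =>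
    obtain ⟨g, hg, g1⟩ := hx
    obtain ⟨g', hg', g1'⟩ := hy
    exact ⟨g + g', add_mem hg hg', fun D hD hc => by rw [hD.add, g1 D hD hc, g1' D hD hc]; ring⟩
  | inv x hx0 hx =>
    obtain ⟨g, hg, g1⟩ := hx
    refine ⟨-(x⁻¹ ^ 2 * g), neg_mem (mul_mem (pow_mem (inv_mem hx0) 2) hg), fun D hD hc => ?_⟩
    rw [IsDer.inv' hD, g1 D hD hc]; ring
  | mul x y hx0 hy0 hx hy =>
    obtain ⟨g, hg, g1⟩ := hx
    obtain ⟨g', hg', g1'⟩ := hy
    refine ⟨g * y + x * g', add_mem (mul_mem hg hy0) (mul_mem hx0 hg'), fun D hD hc => ?_⟩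
    rw [hD.mul, g1 D hD hc, g1' D hD hc]; ring

theorem killed {D : FractionRing (MvPolynomial σ F) → FractionRing (MvPolynomial σ F)}
    (hD : IsDer D) (hc : ∀ c : F, D (algebraMap F _ c) = 0)
    {S : Set (FractionRing (MvPolynomial σ F))}
    (hS : ∀ s ∈ S, D s = 0) {z : FractionRing (MvPolynomial σ F)}
    (hz : z ∈ IntermediateField.adjoin F S) : D z = 0 := by
  induction hz using IntermediateField.adjoin_induction with
  | mem x hx => exact hS x hx
  | algebraMap c => exact hc c
  | add x y _ _ hx hy => rw [hD.add, hx, hy, add_zero]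
  | inv x _ hx => rw [IsDer.inv' hD, hx]; ring
  | mul x y _ _ hx hy => rw [hD.mul, hx, hy]; ring

variable [DecidableEq σ]
  {D : σ → FractionRing (MvPolynomial σ F) → FractionRing (MvPolynomial σ F)}
  (hD : ∀ v, IsDer (D v)) (hc : ∀ v (c : F), D v (algebraMap F _ c) = 0)
  (hx : ∀ v u, D v (gz F σ u) = if u = v then 1 else 0)
  (hcomm : ∀ u v x, D u (D v x) = D v (D u x)) {X Y Z : Type} (a : X → σ) (b : Y → σ) (c : Z → σ)
  (grp : σ → Option (Fin 3)) (ga : ∀ x, grp (a x) = some 0) (gb : ∀ x, grp (b x) = some 1)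
  (gc : ∀ x, grp (c x) = some 2)

include hD hc hcomm in
omit [DecidableEq σ] in
theorem three : Three F (fun x => D (a x)) (fun y => D (b y)) (fun z => D (c z)) :=
  ⟨fun _ => hD _, fun _ => hD _, fun _ => hD _, fun _ _ _ => hcomm _ _ _,
    fun _ _ _ => hcomm _ _ _, fun _ _ _ => hcomm _ _ _, fun _ => hc _, fun _ => hc _,
    fun _ => hc _⟩

include hD hc hx ga gb gc in
theorem freeG_subset : FreeG F grp ⊆
    OneGroup (fun x => D (a x)) (fun y => D (b y)) (fun z => D (c z)) := by
  have key : ∀ (i j : Fin 3) (v : σ) (u : FractionRing (MvPolynomial σ F)), i ≠ j →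
      grp v = some j → u ∈ IntermediateField.adjoin F
        {x | ∃ v : σ, (grp v = none ∨ grp v = some i) ∧
          x = algebraMap (MvPolynomial σ F) _ (MvPolynomial.X v)} → D v u = 0 := by
    intro i j v u hij hv hu
    refine killed (hD v) (hc v) ?_ hu
    rintro _ ⟨v', hv', rfl⟩
    have h1 : v' ≠ v := by
      rintro rfl
      rw [hv] at hv'
      rcases hv' with h | h
      · exact absurd h (by simp)
      · exact hij (Option.some.inj h).symm
    have := hx v v'
    rw [if_neg h1] at this
    exact this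
  rintro u ⟨i, hu⟩
  fin_cases i
  · right; right
    exact ⟨fun y => key 0 1 _ u (by decide) (gb y) hu, fun z => key 0 2 _ u (by decide) (gc z) hu⟩
  · right; left
    exact ⟨fun y => key 1 0 _ u (by decide) (ga y) hu, fun z => key 1 2 _ u (by decide) (gc z) hu⟩
  · left
    exact ⟨fun y => key 2 0 _ u (by decide) (ga y) hu, fun z => key 2 1 _ u (by decide) (gb z) hu⟩

include hD hc in
omit [DecidableEq σ] in
theorem fn2_of_adjoin {w z : FractionRing (MvPolynomial σ F)}
    (hz : z ∈ IntermediateField.adjoin F {w}) :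
    Fn2 (fun x => D (a x)) (fun y => D (b y)) (fun z => D (c z)) w z := by
  obtain ⟨h, hh, h1⟩ := adjoin_deriv hz
  obtain ⟨g, -, g1⟩ := adjoin_deriv hh
  exact ⟨h, g, fun _ => h1 _ (hD _) (hc _), fun _ => h1 _ (hD _) (hc _),
    fun _ => h1 _ (hD _) (hc _), fun _ => g1 _ (hD _) (hc _), fun _ => g1 _ (hD _) (hc _),
    fun _ => g1 _ (hD _) (hc _)⟩

include hD hc hx hcomm ga gb gc in
/-- the third derivative of a polynomial computed by gates of unbounded fan-in -/
theorem third_rat [DecidableEq (FractionRing (MvPolynomial σ F))] {f : MvPolynomial σ F} {t : ℕ}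
    (h : InGates F grp f t) :
    (∃ U : Finset (FractionRing (MvPolynomial σ F)), U.card ≤ 5 * t ∧
      ∀ z, M (fun x => D (a x)) (fun y => D (b y)) (D (c z) (algebraMap _ _ f)) ∈
        VV (fun x => D (a x)) (fun y => D (b y)) (U : Set (FractionRing (MvPolynomial σ F)))) ∧
    ∃ U : Finset (FractionRing (MvPolynomial σ F)), U.card ≤ 5 * t + 1 ∧
      ∀ z, M (fun x => D (a x)) (fun y => D (b y))
        (D (c z) (algebraMap _ _ f) / algebraMap _ _ f) ∈
        VV (fun x => D (a x)) (fun y => D (b y)) (U : Set (FractionRing (MvPolynomial σ F))) := by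
  obtain ⟨z, hz, hf⟩ := h
  have hS := freeG_subset hD hc hx a b c grp ga gb gc
  refine third (three hD hc hcomm a b c)
    (hz.mono hS fun w z hwz => fn2_of_adjoin hD hc a b c hwz) ?_
  exact Submodule.span_mono (Set.union_subset_union_left _ hS) hf

end general

theorem exists_coef {E X Y : Type*} [Field E] {dA : X → E → E} {dB : Y → E → E} {U : Finset E}
    {T : X → Y → E} (h : T ∈ VV dA dB (U : Set E)) :
    ∃ a : U → E, ∀ x y, T x y = ∑ u, a u * (dA x u.1 * dB y u.1) := by
  classical
  unfold VV at h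
  rw [Submodule.mem_span_image_finset_iff_exists_fun] at h
  obtain ⟨a, ha⟩ := h
  refine ⟨a, fun x y => ?_⟩
  rw [← ha]
  simp [Finset.sum_apply, O]

/-- **The trace of a product of three matrices.** -/
theorem trace_rank {F : Type} [Field F] [Infinite F] {m n p t : ℕ}
    (h : InGates F grp3 (traceABC F m n p) t) : RankLE F m n p (5 * t) := by
  classical
  obtain ⟨D, hD, hc, hx, hcomm⟩ := exists_all F (V3 m n p)
  let a : Fin m × Fin n → V3 m n p := fun x => Sum.inl x
  let b : Fin n × Fin p → V3 m n p := fun x => Sum.inr (Sum.inl x)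
  let c : Fin p × Fin m → V3 m n p := fun x => Sum.inr (Sum.inr x)
  obtain ⟨⟨U, hU, hM⟩, -⟩ := third_rat hD hc hx hcomm a b c grp3 (fun _ => rfl) (fun _ => rfl)
    (fun _ => rfl) h
  have hP : Partials F (fun x => gz F (V3 m n p) (a x)) (fun y => gz F (V3 m n p) (b y))
      (fun x => D (a x)) (fun y => D (b y)) := by
    refine ⟨fun _ => hD _, fun _ => hD _, fun _ _ _ => hcomm _ _ _, fun _ => hc _, fun _ => hc _,
      fun x x' => ?_, fun y y' => ?_, fun x y => ?_, fun y x => ?_⟩
    · rw [hx]
      by_cases h : x = x'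
      · rw [if_pos h, if_pos (by rw [h])]
      · rw [if_neg h, if_neg (fun h' => h (Sum.inl_injective h').symm)]
    · rw [hx]
      by_cases h : y = y'
      · rw [if_pos h, if_pos (by rw [h])]
      · rw [if_neg h, if_neg (fun h' => h (Sum.inl_injective (Sum.inr_injective h')).symm)]
    · rw [hx, if_neg (by simp [a, b])]
    · rw [hx, if_neg (by simp [a, b])]
  have hgrad : ∀ (i : Fin m) (k : Fin p), D (c (k, i)) (algebraMap _ _ (traceABC F m n p)) =
      ∑ j, gz F (V3 m n p) (a (i, j)) * gz F (V3 m n p) (b (j, k)) := by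
    intro i k
    have e1 : (algebraMap (MvPolynomial (V3 m n p) F) (FractionRing (MvPolynomial (V3 m n p) F))
        (traceABC F m n p)) = ∑ i : Fin m, ∑ j : Fin n, ∑ k : Fin p,
          gz F (V3 m n p) (a (i, j)) * gz F (V3 m n p) (b (j, k)) * gz F (V3 m n p) (c (k, i)) := by
      unfold traceABC
      simp only [map_sum, map_mul]
      rfl
    rw [e1]
    simp only [(hD _).sum, (hD _).mul, hx]
    have e2 : ∀ (i' : Fin m) (j : Fin n) (k' : Fin p),
        ((if a (i', j) = c (k, i) then 1 else 0) * gz F (V3 m n p) (b (j, k')) +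
          gz F (V3 m n p) (a (i', j)) * (if b (j, k') = c (k, i) then 1 else 0)) *
          gz F (V3 m n p) (c (k', i')) +
        gz F (V3 m n p) (a (i', j)) * gz F (V3 m n p) (b (j, k')) *
          (if c (k', i') = c (k, i) then 1 else 0) =
        if i' = i ∧ k' = k then gz F (V3 m n p) (a (i', j)) * gz F (V3 m n p) (b (j, k')) else 0 := by
      intro i' j k'
      rw [if_neg (by simp [a, c]), if_neg (by simp [b, c])]
      by_cases h : i' = i ∧ k' = k
      · rw [if_pos h, if_pos (by rw [h.1, h.2])]; ring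
      · rw [if_neg h, if_neg]
        · ring
        · intro h'
          have := Sum.inr_injective (Sum.inr_injective h')
          rw [Prod.mk.injEq] at this
          exact h ⟨this.2, this.1⟩
    simp only [e2]
    rw [Finset.sum_eq_single i]
    · refine Finset.sum_congr rfl fun j _ => ?_
      rw [Finset.sum_eq_single k]
      · simp
      · intro k' _ hk'
        rw [if_neg (fun h => hk' h.2)]
      · simp
    · intro i' _ hi'
      refine Finset.sum_eq_zero fun j _ => Finset.sum_eq_zero fun k' _ => ?_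
      rw [if_neg (fun h => hi' h.1)]
    · simp
  have hR := rankLE_of_span (fun (l : U) x => D (a x) l.1) (fun (l : U) y => D (b y) l.1)
    (m := m) (n := n) (p := p) (fun i k => by
      have h1 := hM (k, i)
      rw [hgrad, M_entry hP i k] at h1
      unfold VV at h1
      refine Submodule.span_mono ?_ h1
      rintro _ ⟨u, hu, rfl⟩
      exact ⟨⟨u, hu⟩, rfl⟩)
  rw [Fintype.card_coe] at hR
  exact rank_descend (hR.mono hU)

end Pool.Agent.N590.UF
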