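import Pool.Agent.N590.UF.Core

set_option autoImplicit false

/-!
# Reverse mode differentiation: the rank of the third derivative
-/

namespace Pool.Agent.N590.UF

open Pool.Agent.H53R3 Pool.Agent.N590.MS Finset

section

variable {F E X Y Z : Type*} [Field F] [Field E] [Algebra F E] {dA : X → E → E} {dB : Y → E → E}
  {dC : Z → E → E}

theorem M_of_P {V : Submodule E (X → Y → E)} (h : Diffs dA dB) {u : E} (hP : P dA dB u ∈ V)
    (hO : O dA dB u ∈ V) : M dA dB u ∈ V := by
  by_cases h0 : u = 0
  · rw [h0, M_zero h]; exact V.zero_mem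
  · have e : M dA dB u = u⁻¹ • (P dA dB u + O dA dB u) := by
      unfold P
      rw [sub_add_cancel, smul_smul, inv_mul_cancel₀ h0, one_smul]
    rw [e]
    exact V.smul_mem _ (V.add_mem hP hO)

theorem P_of_M {V : Submodule E (X → Y → E)} {u : E} (hM : M dA dB u ∈ V)
    (hO : O dA dB u ∈ V) : P dA dB u ∈ V := V.sub_mem (V.smul_mem _ hM) hO

/-- the span of the tensors belonging to the elements of a set -/
def VV (dA : X → E → E) (dB : Y → E → E) (U : Set E) : Submodule E (X → Y → E) :=
  Submodule.span E (O dA dB '' U)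

theorem VV_mono {U U' : Set E} (h : U ⊆ U') : VV dA dB U ≤ VV dA dB U' :=
  Submodule.span_mono (Set.image_mono h)

theorem O_mem {U : Set E} {u : E} (h : u ∈ U) : O dA dB u ∈ VV dA dB U :=
  Submodule.subset_span ⟨u, h, rfl⟩

/-- the data of a step -/
structure StepData (h : Three F dA dB dC) (U₀ : Set E) (z : ℕ → E) (i : ℕ) (w h' : E) : Prop where
  wM : M dA dB w ∈ VV dA dB U₀
  wP : P dA dB w ∈ VV dA dB U₀
  hM : M dA dB h' ∈ VV dA dB U₀
  hP : P dA dB h' ∈ VV dA dB U₀
  zM : M dA dB (z i) ∈ VV dA dB U₀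
  zP : P dA dB (z i) ∈ VV dA dB U₀
  dz : ∀ c, dC c (z i) = h' * dC c w
  form : (∃ (κ : Z → E) (γ : ℕ → F), (∀ c, Ker dA dB (κ c)) ∧
      ∀ c, dC c w = κ c + ∑ j ∈ range i, algebraMap F E (γ j) * dC c (z j)) ∨
    ∃ (κ : Z → E) (e : ℕ → ℤ), (∀ c, Ker dA dB (κ c)) ∧
      ∀ c, dC c w = w * (κ c + ∑ j ∈ range i, (e j : E) * (dC c (z j) / z j))

/-- the forward pass -/
theorem forward (h : Three F dA dB dC) {z : ℕ → E} {t : ℕ}
    (hz : IsRun F (Fn2 dA dB dC) (OneGroup dA dB dC) z t) :
    ∃ w h' : ℕ → E, ∀ U₀ : Set E, (∀ i < t, w i ∈ U₀) →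
      (∀ i < t, StepData h U₀ z i (w i) (h' i)) ∧
      ∀ f ∈ Submodule.span F (Avail (OneGroup dA dB dC) z t), M dA dB f ∈ VV dA dB U₀ := by
  choose! w hw using hz
  have hw2 := fun i hi => (hw i hi).2
  choose! h' g hA hB hC hA' hB' hC' using hw2
  refine ⟨w, h', fun U₀ hU => ?_⟩
  set V := VV dA dB U₀ with hV
  have hS := oneGroup_subset (dA := dA) (dB := dB) (dC := dC)
  have hO : ∀ i < t, O dA dB (w i) ∈ V := fun i hi => O_mem (hU i hi)
  have main : ∀ i, i < t → M dA dB (w i) ∈ V ∧ P dA dB (w i) ∈ V ∧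
      M dA dB (z i) ∈ V ∧ P dA dB (z i) ∈ V := by
    intro i
    induction i using Nat.strong_induction_on with
    | _ i ih =>
      intro hi
      have hwg : M dA dB (w i) ∈ V ∧ P dA dB (w i) ∈ V := by
        rcases (hw i hi).1 with h1 | h1
        · have hm : M dA dB (w i) ∈ V := by
            refine M_mem_span h.diffs h.constA h.constB ?_ h1
            rintro s (hs | ⟨j, hj, rfl⟩)
            · rw [oneSided_M h.diffs (hS hs)]; exact V.zero_mem
            · exact (ih j hj (hj.trans hi)).2.2.1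
          exact ⟨hm, P_of_M hm (hO i hi)⟩
        · have hp : P dA dB (w i) ∈ V := by
            refine P_mem_closure h.diffs ?_ h1
            rintro s (hs | ⟨j, hj, rfl⟩)
            · rw [oneSided_P h.diffs (hS hs)]; exact V.zero_mem
            · exact (ih j hj (hj.trans hi)).2.2.2
          exact ⟨M_of_P h.diffs hp (hO i hi), hp⟩
      exact ⟨hwg.1, hwg.2, fnOf_step h.diffs ⟨h' i, hA i hi, hB i hi⟩ (hO i hi) (Or.inl hwg.1)⟩
  refine ⟨fun i hi => ?_, fun f hf => ?_⟩
  · obtain ⟨h1, h2, h3, h4⟩ := main i hi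
    obtain ⟨h5, h6⟩ := fnOf_step h.diffs ⟨g i, hA' i hi, hB' i hi⟩ (hO i hi) (Or.inl h1)
    refine ⟨h1, h2, h5, h6, h3, h4, hC i hi, ?_⟩
    rcases (hw i hi).1 with h7 | h7
    · exact Or.inl (expand_add h h7)
    · exact Or.inr (expand_mul h h7)
  · refine M_mem_span h.diffs h.constA h.constB ?_ hf
    rintro s (hs | ⟨j, hj, rfl⟩)
    · rw [oneSided_M h.diffs (hS hs)]; exact V.zero_mem
    · exact (main j hj).2.2.1

/-- the backward pass -/
theorem backward [DecidableEq E] (h : Three F dA dB dC) {z w h' : ℕ → E} {t : ℕ} {U₀ : Finset E}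
    (hs : ∀ i < t, StepData h (U₀ : Set E) z i (w i) (h' i)) {G : Z → E}
    (hG : ∃ (g : Z → E) (p : ℕ → E), (∀ c, M dA dB (g c) ∈ VV dA dB (U₀ : Set E)) ∧
      (∀ j, M dA dB (p j) ∈ VV dA dB (U₀ : Set E)) ∧
      ∀ c, G c = g c + ∑ j ∈ range t, p j * dC c (z j)) :
    ∀ d, d ≤ t → ∃ (U : Finset E) (g : Z → E) (p σ : ℕ → E), U₀ ⊆ U ∧ U.card ≤ U₀.card + 4 * d ∧
      (∀ c, M dA dB (g c) ∈ VV dA dB (U : Set E)) ∧
      (∀ j, M dA dB (p j) ∈ VV dA dB (U : Set E)) ∧
      (∀ j, M dA dB (σ j) ∈ VV dA dB (U : Set E)) ∧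
      ∀ c, G c = g c + ∑ j ∈ range (t - d), (p j + σ j / z j) * dC c (z j) := by
  intro d
  induction d with
  | zero =>
    intro _
    obtain ⟨g, p, h1, h2, h3⟩ := hG
    refine ⟨U₀, g, p, 0, Finset.Subset.refl _, by omega, h1, h2, fun j => ?_, fun c => ?_⟩
    · rw [Pi.zero_apply, M_zero h.diffs]; exact Submodule.zero_mem _
    · rw [h3]
      simp
  | succ d ih =>
    intro hd
    obtain ⟨U, g, p, σ, hU, hc, h1, h2, h3, h4⟩ := ih (by omega)
    obtain ⟨i, hi⟩ : ∃ i, t - d = i + 1 := ⟨t - d - 1, by omega⟩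
    have hi' : t - (d + 1) = i := by omega
    have S := hs i (by omega)
    rw [hi] at h4
    rw [hi']
    set a := p i + σ i / z i with ha
    rcases S.form with ⟨κ, γ, hκ, hw⟩ | ⟨κ, e, hκ, hw⟩
    · -- a sum
      set b := a * h' i with hb
      let U' : Finset E := insert (σ i) (insert (σ i / z i) (insert a (insert b U)))
      have hUU : (U : Set E) ⊆ (U' : Set E) := by
        intro x hx
        simp only [U', Finset.coe_insert]
        exact Or.inr (Or.inr (Or.inr (Or.inr hx)))
      have hV : VV dA dB (U : Set E) ≤ VV dA dB (U' : Set E) := VV_mono hUU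
      have hV0 : VV dA dB (U₀ : Set E) ≤ VV dA dB (U' : Set E) :=
        VV_mono (fun x hx => hUU (hU hx))
      have m1 : O dA dB (σ i) ∈ VV dA dB (U' : Set E) := O_mem (by simp [U'])
      have m2 : O dA dB (σ i / z i) ∈ VV dA dB (U' : Set E) := O_mem (by simp [U'])
      have m3 : O dA dB a ∈ VV dA dB (U' : Set E) := O_mem (by simp [U'])
      have m4 : O dA dB b ∈ VV dA dB (U' : Set E) := O_mem (by simp [U'])
      have Pσ := P_of_M (hV (h3 i)) m1
      have Pσz : P dA dB (σ i / z i) ∈ VV dA dB (U' : Set E) := by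
        rw [div_eq_mul_inv, P_mul h.diffs, P_inv h.diffs]
        exact Submodule.add_mem _ (Submodule.smul_mem _ _ Pσ)
          (Submodule.smul_mem _ _ (Submodule.smul_mem _ _ (hV0 S.zP)))
      have Ma : M dA dB a ∈ VV dA dB (U' : Set E) := by
        rw [ha, M_add h.diffs]
        exact Submodule.add_mem _ (hV (h2 i)) (M_of_P h.diffs Pσz m2)
      have Mb : M dA dB b ∈ VV dA dB (U' : Set E) := by
        refine M_of_P h.diffs ?_ m4
        rw [hb, P_mul h.diffs]
        exact Submodule.add_mem _ (Submodule.smul_mem _ _ (P_of_M Ma m3))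
          (Submodule.smul_mem _ _ (hV0 S.hP))
      refine ⟨U', fun c => g c + κ c * b, fun j => p j + algebraMap F E (γ j) * b, σ,
        fun x hx => hUU (hU hx), ?_, fun c => ?_, fun j => ?_, fun j => hV (h3 j), fun c => ?_⟩
      · have c1 := Finset.card_insert_le (σ i) (insert (σ i / z i) (insert a (insert b U)))
        have c2 := Finset.card_insert_le (σ i / z i) (insert a (insert b U))
        have c3 := Finset.card_insert_le a (insert b U)
        have c4 := Finset.card_insert_le b U
        show U'.card ≤ _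
        simp only [U']
        omega
      · rw [M_add h.diffs, M_ker_mul h (hκ c)]
        exact Submodule.add_mem _ (hV (h1 c)) (Submodule.smul_mem _ _ Mb)
      · rw [M_add h.diffs, M_ker_mul h (Ker.const h _)]
        exact Submodule.add_mem _ (hV (h2 j)) (Submodule.smul_mem _ _ Mb)
      · rw [h4, Finset.sum_range_succ, ← ha, S.dz, hw]
        have e1 : a * (h' i * (κ c + ∑ j ∈ range i, algebraMap F E (γ j) * dC c (z j))) =
            κ c * b + ∑ j ∈ range i, algebraMap F E (γ j) * b * dC c (z j) := by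
          rw [hb, ← mul_assoc, mul_add, Finset.mul_sum]
          congr 1
          · ring
          · exact Finset.sum_congr rfl fun j _ => by ring
        rw [e1]
        have e2 : ∑ j ∈ range i, (p j + algebraMap F E (γ j) * b + σ j / z j) * dC c (z j) =
            ∑ j ∈ range i, (p j + σ j / z j) * dC c (z j) +
              ∑ j ∈ range i, algebraMap F E (γ j) * b * dC c (z j) := by
          rw [← Finset.sum_add_distrib]
          exact Finset.sum_congr rfl fun j _ => by ring
        rw [e2]
        ring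
    · -- a product
      set b := a * h' i * w i with hb
      let U' : Finset E := insert (σ i) (insert (σ i / z i) (insert a (insert b U)))
      have hUU : (U : Set E) ⊆ (U' : Set E) := by
        intro x hx
        simp only [U', Finset.coe_insert]
        exact Or.inr (Or.inr (Or.inr (Or.inr hx)))
      have hV : VV dA dB (U : Set E) ≤ VV dA dB (U' : Set E) := VV_mono hUU
      have hV0 : VV dA dB (U₀ : Set E) ≤ VV dA dB (U' : Set E) :=
        VV_mono (fun x hx => hUU (hU hx))
      have m1 : O dA dB (σ i) ∈ VV dA dB (U' : Set E) := O_mem (by simp [U'])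
      have m2 : O dA dB (σ i / z i) ∈ VV dA dB (U' : Set E) := O_mem (by simp [U'])
      have m3 : O dA dB a ∈ VV dA dB (U' : Set E) := O_mem (by simp [U'])
      have m4 : O dA dB b ∈ VV dA dB (U' : Set E) := O_mem (by simp [U'])
      have Pσ := P_of_M (hV (h3 i)) m1
      have Pσz : P dA dB (σ i / z i) ∈ VV dA dB (U' : Set E) := by
        rw [div_eq_mul_inv, P_mul h.diffs, P_inv h.diffs]
        exact Submodule.add_mem _ (Submodule.smul_mem _ _ Pσ)
          (Submodule.smul_mem _ _ (Submodule.smul_mem _ _ (hV0 S.zP)))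
      have Ma : M dA dB a ∈ VV dA dB (U' : Set E) := by
        rw [ha, M_add h.diffs]
        exact Submodule.add_mem _ (hV (h2 i)) (M_of_P h.diffs Pσz m2)
      have Mb : M dA dB b ∈ VV dA dB (U' : Set E) := by
        refine M_of_P h.diffs ?_ m4
        rw [hb, P_mul h.diffs, P_mul h.diffs]
        refine Submodule.add_mem _ (Submodule.smul_mem _ _ (Submodule.add_mem _
          (Submodule.smul_mem _ _ (P_of_M Ma m3)) (Submodule.smul_mem _ _ (hV0 S.hP))))
          (Submodule.smul_mem _ _ (hV0 S.wP))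
      refine ⟨U', fun c => g c + κ c * b, p, fun j => σ j + (e j : E) * b,
        fun x hx => hUU (hU hx), ?_, fun c => ?_, fun j => hV (h2 j), fun j => ?_, fun c => ?_⟩
      · have c1 := Finset.card_insert_le (σ i) (insert (σ i / z i) (insert a (insert b U)))
        have c2 := Finset.card_insert_le (σ i / z i) (insert a (insert b U))
        have c3 := Finset.card_insert_le a (insert b U)
        have c4 := Finset.card_insert_le b U
        show U'.card ≤ _
        simp only [U']
        omega
      · rw [M_add h.diffs, M_ker_mul h (hκ c)]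
        exact Submodule.add_mem _ (hV (h1 c)) (Submodule.smul_mem _ _ Mb)
      · rw [M_add h.diffs, M_ker_mul h (Ker.intCast h _)]
        exact Submodule.add_mem _ (hV (h3 j)) (Submodule.smul_mem _ _ Mb)
      · rw [h4, Finset.sum_range_succ, ← ha, S.dz, hw]
        have e1 : a * (h' i * (w i * (κ c + ∑ j ∈ range i, (e j : E) * (dC c (z j) / z j)))) =
            κ c * b + ∑ j ∈ range i, (e j : E) * b / z j * dC c (z j) := by
          rw [hb, ← mul_assoc, ← mul_assoc, mul_add, Finset.mul_sum]
          congr 1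
          · ring
          · exact Finset.sum_congr rfl fun j _ => by ring
        rw [e1]
        have e2 : ∑ j ∈ range i, (p j + (σ j + (e j : E) * b) / z j) * dC c (z j) =
            ∑ j ∈ range i, (p j + σ j / z j) * dC c (z j) +
              ∑ j ∈ range i, (e j : E) * b / z j * dC c (z j) := by
          rw [← Finset.sum_add_distrib]
          exact Finset.sum_congr rfl fun j _ => by ring
        rw [e2]
        ring

/-- **The rank of the third derivative.** `ρ` is `1`, or `1 / f`. -/
theorem third [DecidableEq E] (h : Three F dA dB dC) {z : ℕ → E} {t : ℕ}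
    (hz : IsRun F (Fn2 dA dB dC) (OneGroup dA dB dC) z t) {f : E}
    (hf : f ∈ Submodule.span F (Avail (OneGroup dA dB dC) z t)) :
    (∃ U : Finset E, U.card ≤ 5 * t ∧ ∀ c, M dA dB (dC c f) ∈ VV dA dB (U : Set E)) ∧
    ∃ U : Finset E, U.card ≤ 5 * t + 1 ∧ ∀ c, M dA dB (dC c f / f) ∈ VV dA dB (U : Set E) := by
  obtain ⟨w, h', H⟩ := forward h hz
  obtain ⟨κ, γ, hκ, hdf⟩ := expand_add h hf
  constructor
  · let U₀ : Finset E := (range t).image w
    have hU₀ : ∀ i < t, w i ∈ (U₀ : Set E) := fun i hi => by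
      simp only [U₀, Finset.coe_image, Set.mem_image, Finset.coe_range, Set.mem_Iio]
      exact ⟨i, hi, rfl⟩
    have hcard : U₀.card ≤ t := by
      have := Finset.card_image_le (s := range t) (f := w)
      rwa [Finset.card_range] at this
    obtain ⟨H1, -⟩ := H U₀ hU₀
    have hG : ∃ (g : Z → E) (p : ℕ → E), (∀ c, M dA dB (g c) ∈ VV dA dB (U₀ : Set E)) ∧
        (∀ j, M dA dB (p j) ∈ VV dA dB (U₀ : Set E)) ∧
        ∀ c, dC c f = g c + ∑ j ∈ range t, p j * dC c (z j) := by
      refine ⟨κ, fun j => algebraMap F E (γ j), fun c => ?_, fun j => ?_, fun c => hdf c⟩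
      · have : κ c ∈ OneSided dA dB := Or.inl (hκ c).1
        rw [oneSided_M h.diffs this]
        exact Submodule.zero_mem _
      · have : algebraMap F E (γ j) ∈ OneSided dA dB := Or.inl fun x => h.constA x _
        rw [oneSided_M h.diffs this]
        exact Submodule.zero_mem _
    obtain ⟨U, g, p, σ, hU, hc, h1, h2, h3, h4⟩ := backward h (U₀ := U₀) H1 hG t le_rfl
    refine ⟨U, by omega, fun c => ?_⟩
    have h5 := h4 c
    rw [Nat.sub_self, Finset.range_zero, Finset.sum_empty, add_zero] at h5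
    rw [h5]
    exact h1 c
  · let U₀ : Finset E := insert f ((range t).image w)
    have hU₀ : ∀ i < t, w i ∈ (U₀ : Set E) := fun i hi => by
      simp only [U₀, Finset.coe_insert, Finset.coe_image, Finset.coe_range]
      exact Or.inr ⟨i, hi, rfl⟩
    have hcard : U₀.card ≤ t + 1 := by
      have := Finset.card_image_le (s := range t) (f := w)
      rw [Finset.card_range] at this
      have h2 := Finset.card_insert_le f ((range t).image w)
      show (insert f ((range t).image w)).card ≤ _
      omega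
    obtain ⟨H1, H2⟩ := H U₀ hU₀
    have Of : O dA dB f ∈ VV dA dB (U₀ : Set E) := O_mem (by simp [U₀])
    have Mf := H2 f hf
    have Pf := P_of_M Mf Of
    have Mi : M dA dB f⁻¹ ∈ VV dA dB (U₀ : Set E) := by
      refine M_of_P h.diffs ?_ ?_
      · rw [P_inv h.diffs]
        exact Submodule.smul_mem _ _ Pf
      · have e : O dA dB f⁻¹ = (f⁻¹ ^ 4) • O dA dB f := by
          funext x y
          simp only [O, Pi.smul_apply, smul_eq_mul, IsDer.inv' (h.derA x), IsDer.inv' (h.derB y)]
          ring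
        rw [e]
        exact Submodule.smul_mem _ _ Of
    have hG : ∃ (g : Z → E) (p : ℕ → E), (∀ c, M dA dB (g c) ∈ VV dA dB (U₀ : Set E)) ∧
        (∀ j, M dA dB (p j) ∈ VV dA dB (U₀ : Set E)) ∧
        ∀ c, dC c f / f = g c + ∑ j ∈ range t, p j * dC c (z j) := by
      refine ⟨fun c => κ c * f⁻¹, fun j => algebraMap F E (γ j) * f⁻¹, fun c => ?_, fun j => ?_,
        fun c => ?_⟩
      · rw [M_ker_mul h (hκ c)]
        exact Submodule.smul_mem _ _ Mi
      · rw [M_ker_mul h (Ker.const h _)]
        exact Submodule.smul_mem _ _ Mi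
      · rw [hdf, div_eq_mul_inv, add_mul, Finset.sum_mul]
        congr 1
        exact Finset.sum_congr rfl fun j _ => by ring
    obtain ⟨U, g, p, σ, hU, hc, h1, h2, h3, h4⟩ := backward h (U₀ := U₀) H1 hG t le_rfl
    refine ⟨U, by omega, fun c => ?_⟩
    have h5 := h4 c
    rw [Nat.sub_self, Finset.range_zero, Finset.sum_empty, add_zero] at h5
    rw [h5]
    exact h1 c

end

end Pool.Agent.N590.UF
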